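import Pool.Agent.Helper4.CB.Defs

/-! Project CB, T-TRI, piece D4: the Chinese remainder theorem outside a finite set. -/

set_option autoImplicit false

namespace Pool.Agent.Helper17.CB

open NumberField Pool.Agent.Helper4.CB

/-- **D4.** Chinese remainder theorem, outside a finite set -/
theorem exists_crt {K : Type} [Field K] [NumberField K] (B : Finset (Pl K)) (t : Pl K → 𝓞 K)
    (Z : Finset K) : ∃ τ : 𝓞 K, (τ : K) ∉ Z ∧ ∀ p ∈ B, τ - t p ∈ p.asIdeal := by
  obtain ⟨y, hy⟩ := IsDedekindDomain.exists_forall_sub_mem_ideal (s := B)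
    (fun p : Pl K => p.asIdeal) (fun _ => 1)
    (fun p _ => Ideal.prime_of_isPrime p.ne_bot p.isPrime)
    (fun p _ q _ hpq h => hpq (IsDedekindDomain.HeightOneSpectrum.ext h))
    (fun p => t p.1)
  set N : ℕ := ∏ p ∈ B, nm p with hN
  have hN0 : N ≠ 0 := by
    rw [hN]
    refine Finset.prod_ne_zero_iff.2 fun p _ => ?_
    have := two_le_nm p
    omega
  have hNp : ∀ p ∈ B, (N : 𝓞 K) ∈ p.asIdeal := by
    intro p hp
    obtain ⟨c, hc⟩ := Finset.dvd_prod_of_mem (fun p : Pl K => nm p) hp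
    rw [hN, hc]
    push_cast
    exact Ideal.mul_mem_right _ _ (Ideal.absNorm_mem p.asIdeal)
  have hinj : Function.Injective (fun k : ℕ => ((y + k * (N : 𝓞 K) : 𝓞 K) : K)) := by
    intro k l hkl
    have h1 : (y + k * (N : 𝓞 K) : 𝓞 K) = y + l * (N : 𝓞 K) :=
      FaithfulSMul.algebraMap_injective (𝓞 K) K hkl
    have h2 : (k : 𝓞 K) * (N : 𝓞 K) = (l : 𝓞 K) * (N : 𝓞 K) := add_left_cancel h1
    have h3 : ((k * N : ℕ) : 𝓞 K) = ((l * N : ℕ) : 𝓞 K) := by
      push_cast
      exact h2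
    have h4 : k * N = l * N := by exact_mod_cast h3
    exact Nat.eq_of_mul_eq_mul_right (Nat.pos_of_ne_zero hN0) h4
  obtain ⟨k, hk⟩ := Infinite.exists_notMem_finset (Z.preimage _ hinj.injOn)
  refine ⟨y + k * (N : 𝓞 K), ?_, ?_⟩
  · intro h
    exact hk (Finset.mem_preimage.2 h)
  · intro p hp
    have h1 := hy p hp
    rw [pow_one] at h1
    have h2 : y + k * (N : 𝓞 K) - t p = (y - t p) + k * (N : 𝓞 K) := by ring
    rw [h2]
    exact add_mem h1 (Ideal.mul_mem_left _ _ (hNp p hp))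

end Pool.Agent.Helper17.CB
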