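import Pool.Agent.Helper16.CB.Val

/-! Project CB, piece A7a: valuations in extensions of number fields. -/

set_option autoImplicit false

namespace Pool.Agent.Helper17.CB

open NumberField Pool.Agent.Helper16.CB

/-- A7a.  The valuation of elements of `K` at `q` is `e` times the valuation at `p`. -/
theorem val_up {K L : Type*} [Field K] [NumberField K] [Field L] [NumberField L] [Algebra K L]
    {q : Ideal (𝓞 L)} (hq : q.IsPrime) (hq0 : q ≠ ⊥) :
    ∃ e : ℕ, 1 ≤ e ∧
      (∀ (x : 𝓞 K) (m : ℕ), x ∈ (q.comap (algebraMap (𝓞 K) (𝓞 L))) ^ m →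
        algebraMap (𝓞 K) (𝓞 L) x ∈ q ^ (e * m)) ∧
      (∀ (x : 𝓞 K) (m : ℕ), Val (q.comap (algebraMap (𝓞 K) (𝓞 L))) x m →
        Val q (algebraMap (𝓞 K) (𝓞 L) x) (e * m)) := by
  set f := algebraMap (𝓞 K) (𝓞 L) with hf
  set p := q.comap f with hp
  have hinj : Function.Injective f := RingOfIntegers.algebraMap.injective K L
  have hpp : p.IsPrime := Ideal.IsPrime.comap f
  have hp0 : p ≠ ⊥ := by
    intro h0
    apply hq0
    exact Ideal.eq_bot_of_comap_eq_bot h0
  have hmap0 : p.map f ≠ ⊥ := by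
    rw [Ne, Ideal.map_eq_bot_iff_of_injective hinj]
    exact hp0
  have hfin : FiniteMultiplicity q (p.map f) := by
    refine FiniteMultiplicity.of_not_isUnit ?_ hmap0
    rw [Ideal.isUnit_iff]
    exact hq.ne_top
  set e := multiplicity q (p.map f) with he
  have hem : emultiplicity q (p.map f) = e := hfin.emultiplicity_eq_multiplicity
  have hqprime : Prime q := Ideal.prime_of_isPrime hq0 hq
  have hdvd : q ∣ p.map f := by
    rw [Ideal.dvd_iff_le]
    exact Ideal.map_comap_le
  have he1 : 1 ≤ e := by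
    have h1 : (1 : ℕ∞) ≤ emultiplicity q (p.map f) := by
      have := pow_dvd_iff_le_emultiplicity.1 (show q ^ 1 ∣ p.map f by rwa [pow_one])
      exact_mod_cast this
    rw [hem] at h1
    exact_mod_cast h1
  have hle : p.map f ≤ q ^ e := by
    rw [← Ideal.dvd_iff_le]
    exact pow_dvd_of_le_emultiplicity (by rw [hem])
  refine ⟨e, he1, ?_, ?_⟩
  · intro x m hx
    have h1 : f x ∈ (p ^ m).map f := Ideal.mem_map_of_mem f hx
    rw [Ideal.map_pow] at h1
    have h2 : p.map f ^ m ≤ (q ^ e) ^ m := Ideal.pow_right_mono hle m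
    rw [pow_mul]
    exact h2 h1
  · intro x m hx
    rw [val_iff] at hx ⊢
    have hx1 : p ^ m ∣ Ideal.span {x} := pow_dvd_of_le_emultiplicity (by rw [hx])
    obtain ⟨I, hI⟩ := hx1
    have hpI : ¬ p ∣ I := by
      rintro ⟨I', rfl⟩
      have h3 : p ^ (m + 1) ∣ Ideal.span {x} := ⟨I', by rw [hI]; ring⟩
      have h4 := pow_dvd_iff_le_emultiplicity.1 h3
      rw [hx] at h4
      have h5 : m + 1 ≤ m := by exact_mod_cast h4
      omega
    have hqI : ¬ q ∣ I.map f := by
      intro h
      apply hpI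
      rw [Ideal.dvd_iff_le] at h ⊢
      exact Ideal.map_le_iff_le_comap.1 h
    have hspan : Ideal.span {f x} = p.map f ^ m * I.map f := by
      rw [← Ideal.map_pow, ← Ideal.map_mul, ← hI, Ideal.map_span, Set.image_singleton]
    rw [hspan, emultiplicity_mul hqprime, emultiplicity_pow hqprime, hem,
      emultiplicity_eq_zero.2 hqI, add_zero]
    push_cast
    ring

end Pool.Agent.Helper17.CB
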