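import Mathlib

/-! Project CB: elimination of one variable. -/

set_option autoImplicit false

namespace Pool.Agent.Helper17.CB

open Polynomial

/-- elimination over a unique factorisation domain -/
theorem exists_elim_poly {A : Type*} [CommRing A] [IsDomain A] [UniqueFactorizationMonoid A]
    {P G : A[X]} (hP : Irreducible P) (hPG : ¬ P ∣ G) :
    ∃ (u v : A[X]) (d : A), d ≠ 0 ∧ u * P + v * G = C d := by
  by_cases hdeg : P.natDegree = 0
  · obtain ⟨d, hd⟩ := natDegree_eq_zero.1 hdeg
    refine ⟨1, 0, d, ?_, ?_⟩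
    · rintro rfl
      rw [C_0] at hd
      exact hP.ne_zero hd.symm
    · rw [one_mul, zero_mul, add_zero, hd]
  · have hprim : P.IsPrimitive := hP.isPrimitive hdeg
    set F := FractionRing A
    have : Nonempty (NormalizedGCDMonoid A) := inferInstance
    have hirr : Irreducible (P.map (algebraMap A F)) :=
      hprim.irreducible_iff_irreducible_map_fraction_map.1 hP
    have hnd : ¬ P.map (algebraMap A F) ∣ G.map (algebraMap A F) := fun h =>
      hPG (hprim.dvd_of_fraction_map_dvd_fraction_map h)
    obtain ⟨U, V, hUV⟩ := (Irreducible.coprime_iff_not_dvd hirr).2 hnd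
    obtain ⟨c1, hc1, h1⟩ := IsLocalization.integerNormalization_spec (nonZeroDivisors A) U
    obtain ⟨c2, hc2, h2⟩ := IsLocalization.integerNormalization_spec (nonZeroDivisors A) V
    refine ⟨C c2 * IsLocalization.integerNormalization (nonZeroDivisors A) U,
      C c1 * IsLocalization.integerNormalization (nonZeroDivisors A) V, c1 * c2,
      mul_ne_zero (nonZeroDivisors.ne_zero hc1) (nonZeroDivisors.ne_zero hc2), ?_⟩
    apply map_injective (algebraMap A F) (FaithfulSMul.algebraMap_injective A F)
    have e1 : c1 • U = C (algebraMap A F c1) * U := by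
      rw [Algebra.smul_def, Polynomial.algebraMap_apply]
    have e2 : c2 • V = C (algebraMap A F c2) * V := by
      rw [Algebra.smul_def, Polynomial.algebraMap_apply]
    rw [Polynomial.map_add, Polynomial.map_mul, Polynomial.map_mul, Polynomial.map_mul,
      Polynomial.map_mul, h1, h2, e1, e2, map_C, map_C, map_C, map_mul, C_mul]
    linear_combination (C (algebraMap A F c1) * C (algebraMap A F c2)) * hUV

/-- **ELIM.** -/
theorem exists_elim {K : Type} [Field K] {σ : Type} [Fintype σ] [DecidableEq σ]
    {P G : MvPolynomial σ K} (hP : Irreducible P) (hPG : ¬ P ∣ G) (j : σ) :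
    ∃ u v R : MvPolynomial σ K, R ≠ 0 ∧ R.degreeOf j = 0 ∧ u * P + v * G = R := by
  set Φ : MvPolynomial σ K ≃ₐ[K] (MvPolynomial {b // b ≠ j} K)[X] :=
    (MvPolynomial.renameEquiv K (Equiv.optionSubtypeNe j).symm).trans
      (MvPolynomial.optionEquivLeft K {b // b ≠ j}) with hΦ
  have hP' : Irreducible (Φ P) := (MulEquiv.irreducible_iff Φ.toMulEquiv).2 hP
  have hPG' : ¬ Φ P ∣ Φ G := by
    intro h
    apply hPG
    exact (map_dvd_iff Φ).1 h
  obtain ⟨u, v, d, hd, huv⟩ := exists_elim_poly hP' hPG'
  refine ⟨Φ.symm u, Φ.symm v, Φ.symm (C d), ?_, ?_, ?_⟩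
  · intro h
    apply hd
    have h1 := congrArg Φ h
    rw [AlgEquiv.apply_symm_apply, map_zero, C_eq_zero] at h1
    exact h1
  · have h1 : MvPolynomial.optionEquivLeft K {b // b ≠ j}
        (MvPolynomial.rename (Equiv.optionSubtypeNe j).symm (Φ.symm (C d))) = C d := by
      have h2 := Φ.apply_symm_apply (C d)
      exact h2
    rw [MvPolynomial.degreeOf_eq_natDegree, h1, natDegree_C]
  · apply Φ.injective
    rw [map_add, map_mul, map_mul, AlgEquiv.apply_symm_apply, AlgEquiv.apply_symm_apply,
      AlgEquiv.apply_symm_apply]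
    exact huv

end Pool.Agent.Helper17.CB
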