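import Pool.Agent.Helper17.CB.Elim
import Pool.Agent.Helper65.CB.Path

/-! Project CB: elimination in the form of the tower. -/

set_option autoImplicit false

namespace Pool.Agent.Helper17.CB

theorem elim (K : Type) [Field K] : Pool.Agent.Helper65.CB.Elim K :=
  fun _ _ _ _ _ hP hPG j => exists_elim hP hPG j

end Pool.Agent.Helper17.CB
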