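import Pool.Agent.Helper16.CB.Val
import Pool.Agent.Helper4.CB.STM

/-! Project CB, piece LCV: specialisation of the local condition. -/

set_option autoImplicit false

namespace Pool.Agent.Helper17.CB

open NumberField Polynomial Pool.Agent.Helper16.CB Pool.Agent.Helper4.CB

section Dedekind

variable {R : Type*} [CommRing R] [IsDedekindDomain R]

theorem exists_div {p : Ideal R} (hp : p.IsPrime) (hp0 : p ≠ ⊥) {a c : R} {i : ℕ}
    (ha : Val p a i) (hc : c ∈ p ^ i) (k : ℕ) : ∃ d : R, c - a * d ∈ p ^ (i + k) := by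
  induction k with
  | zero => exact ⟨0, by simpa using hc⟩
  | succ k ih =>
    obtain ⟨d, hd⟩ := ih
    obtain ⟨ϖ, hϖ1, hϖ2⟩ := Ideal.exists_mem_pow_notMem_pow_succ p hp0 hp.ne_top k
    have hϖ : Val p ϖ k := ⟨hϖ1, hϖ2⟩
    have h1 := ha.mul hp hp0 hϖ
    have := hp
    obtain ⟨d', e, he, hd'⟩ := Ideal.exists_mul_add_mem_pow_succ hp0 (a * ϖ) (c - a * d)
      h1.1 h1.2 hd
    refine ⟨d + ϖ * d', ?_⟩
    have h2 : c - a * (d + ϖ * d') = e := by linear_combination -hd'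
    rw [h2]
    exact he

/-- the local square lemma -/
theorem sq_transfer {p : Ideal R} (hp : p.IsPrime) (hp0 : p ≠ ⊥) {G t1 t2 x y z : R}
    (h : G * t1 ^ 2 * y = t2 ^ 2 * x) (ht1 : t1 ≠ 0) (hx : x ∉ p) (hy : y ∉ p)
    (hz : x * y - z ^ 2 ∈ p) {γ : ℕ} (hG : Val p G γ) : ∃ h, G - h ^ 2 ∈ p ^ (γ + 1) := by
  have hG0 := hG.ne_zero
  have hy0 : y ≠ 0 := fun h0 => hy (h0 ▸ zero_mem _)
  have ht2 : t2 ≠ 0 := by
    rintro rfl
    rw [zero_pow two_ne_zero, zero_mul, mul_eq_zero, mul_eq_zero] at h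
    rcases h with (h | h) | h
    · exact hG0 h
    · exact ht1 (pow_eq_zero_iff two_ne_zero |>.1 h)
    · exact hy0 h
  obtain ⟨i, hi⟩ := exists_val hp ht1
  obtain ⟨j, hj⟩ := exists_val hp ht2
  have hyv : Val p y 0 := val_zero_iff.2 hy
  have hxv : Val p x 0 := val_zero_iff.2 hx
  have hij : γ + 2 * i + 0 = 2 * j + 0 := by
    have h1 := (hG.mul hp hp0 (hi.pow hp hp0 2)).mul hp hp0 hyv
    have h2 := (hj.pow hp hp0 2).mul hp hp0 hxv
    rw [h] at h1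
    exact h1.unique h2
  have hle : i ≤ j := by omega
  have hiy : Val p (t1 * y) i := hi.mul hp hp0 hyv
  have hc : t2 * z ∈ p ^ i := Ideal.mul_mem_right _ _ (hj.mem_of_le hle)
  obtain ⟨d, hd⟩ := exists_div hp hp0 hiy hc (j + 1 - i)
  rw [show i + (j + 1 - i) = j + 1 by omega] at hd
  refine ⟨d, ?_⟩
  have h3 : t2 * z ∈ p ^ j := Ideal.mul_mem_right _ _ hj.1
  have h4 : t1 * y * d ∈ p ^ j := by
    have h5 : t2 * z - t1 * y * d ∈ p ^ j := Ideal.pow_le_pow_right (by omega) hd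
    have := sub_mem h3 h5
    simpa using this
  have h6 : (t2 * z - t1 * y * d) * (t2 * z + t1 * y * d) ∈ p ^ (2 * j + 1) :=
    mul_mem_pow hd (add_mem h3 h4) (by omega)
  have h7 : t2 ^ 2 * (x * y - z ^ 2) ∈ p ^ (2 * j + 1) := by
    have h8 : x * y - z ^ 2 ∈ p ^ 1 := by rwa [pow_one]
    exact mul_mem_pow (hj.pow hp hp0 2).1 h8 (by omega)
  have h9 : (t1 * y) ^ 2 * (G - d ^ 2) ∈ p ^ (2 * i + (γ + 1)) := by
    have h10 : (t1 * y) ^ 2 * (G - d ^ 2) =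
        t2 ^ 2 * (x * y - z ^ 2) + (t2 * z - t1 * y * d) * (t2 * z + t1 * y * d) := by
      linear_combination y * h
    rw [h10, show 2 * i + (γ + 1) = 2 * j + 1 by omega]
    exact add_mem h7 h6
  exact (hiy.pow hp hp0 2).mem_of_mul_mem hp hp0 h9

end Dedekind

variable {K : Type} [Field K] [NumberField K]

set_option linter.unusedSectionVars false

theorem hv_eq (P : (𝓞 K)[X]) (u w : 𝓞 K) (hw : w ≠ 0) :
    algebraMap (𝓞 K) K (hv P u w) = algebraMap (𝓞 K) K w ^ P.natDegree *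
      (P.map (algebraMap (𝓞 K) K)).eval (algebraMap (𝓞 K) K u / algebraMap (𝓞 K) K w) := by
  have hw' : algebraMap (𝓞 K) K w ≠ 0 := by
    rw [Ne, FaithfulSMul.algebraMap_eq_zero_iff]
    exact hw
  have h1 := Polynomial.scaleRoots_eval₂_mul (f := algebraMap (𝓞 K) K) (p := P) (s := w)
    (algebraMap (𝓞 K) K u / algebraMap (𝓞 K) K w)
  rw [mul_div_cancel₀ _ hw'] at h1
  rw [eval_map, ← h1]
  unfold hv
  rw [eval₂_hom]

theorem eval_int (g : K[X]) : ∃ c : 𝓞 K, c ≠ 0 ∧ ∃ N : ℕ, ∀ u w : 𝓞 K, w ≠ 0 → ∃ x : 𝓞 K,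
    g.eval (algebraMap (𝓞 K) K u / algebraMap (𝓞 K) K w) *
      (algebraMap (𝓞 K) K c * algebraMap (𝓞 K) K w ^ N) = algebraMap (𝓞 K) K x := by
  obtain ⟨b, hb⟩ := IsLocalization.integerNormalization_map_to_map (nonZeroDivisors (𝓞 K)) g
  refine ⟨b, nonZeroDivisors.ne_zero b.2,
    (IsLocalization.integerNormalization (nonZeroDivisors (𝓞 K)) g).natDegree, ?_⟩
  intro u w hw
  refine ⟨hv (IsLocalization.integerNormalization (nonZeroDivisors (𝓞 K)) g) u w, ?_⟩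
  rw [hv_eq _ _ _ hw, hb, eval_smul, Algebra.smul_def]
  ring

theorem ne_zero_of_notMem {p : Ideal (𝓞 K)} {x : 𝓞 K} (h : x ∉ p) : x ≠ 0 :=
  fun h0 => h (h0 ▸ zero_mem _)

theorem mul_notMem {p : Ideal (𝓞 K)} (hp : p.IsPrime) {x y : 𝓞 K} (hx : x ∉ p) (hy : y ∉ p) :
    x * y ∉ p := fun h => (hp.mem_or_mem h).elim hx hy

theorem pow_notMem {p : Ideal (𝓞 K)} (hp : p.IsPrime) {x : 𝓞 K} (hx : x ∉ p) (n : ℕ) :
    x ^ n ∉ p := fun h => hx (hp.mem_of_pow_mem _ h)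

theorem unit_rep {g : K[X]} {P : (𝓞 K)[X]} (hirr : Irreducible (P.map (algebraMap (𝓞 K) K)))
    (hnd : ¬ P.map (algebraMap (𝓞 K) K) ∣ g) : ∃ c : 𝓞 K, c ≠ 0 ∧ ∀ p : Ideal (𝓞 K), p.IsPrime →
      c ∉ p → ∀ u w : 𝓞 K, w ∉ p → hv P u w ∈ p → ∃ x y : 𝓞 K, x ∉ p ∧ y ∉ p ∧
        g.eval (algebraMap (𝓞 K) K u / algebraMap (𝓞 K) K w) * algebraMap (𝓞 K) K y =
          algebraMap (𝓞 K) K x := by
  obtain ⟨U, V, hUV⟩ := (Irreducible.coprime_iff_not_dvd hirr).2 hnd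
  obtain ⟨cU, hcU, NU, hU⟩ := eval_int U
  obtain ⟨cV, hcV, NV, hV⟩ := eval_int V
  obtain ⟨cg, hcg, Ng, hg⟩ := eval_int g
  refine ⟨cU * cV * cg, mul_ne_zero (mul_ne_zero hcU hcV) hcg, ?_⟩
  intro p hp hc u w hw hH
  have hw0 := ne_zero_of_notMem hw
  obtain ⟨xU, hxU⟩ := hU u w hw0
  obtain ⟨xV, hxV⟩ := hV u w hw0
  obtain ⟨xg, hxg⟩ := hg u w hw0
  have hcUp : cU ∉ p := fun h => hc (Ideal.mul_mem_right _ _ (Ideal.mul_mem_right _ _ h))
  have hcVp : cV ∉ p := fun h => hc (Ideal.mul_mem_right _ _ (Ideal.mul_mem_left _ _ h))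
  have hcgp : cg ∉ p := fun h => hc (Ideal.mul_mem_left _ _ h)
  refine ⟨xg, cg * w ^ Ng, ?_, mul_notMem hp hcgp (pow_notMem hp hw _), ?_⟩
  · intro hx
    have hHe := hv_eq P u w hw0
    have h1 := congrArg (Polynomial.eval (algebraMap (𝓞 K) K u / algebraMap (𝓞 K) K w)) hUV
    rw [eval_add, eval_mul, eval_mul, eval_one] at h1
    set s := algebraMap (𝓞 K) K u / algebraMap (𝓞 K) K w with hs
    set d := P.natDegree with hd
    have h2 : xU * hv P u w * (cV * w ^ NV * (cg * w ^ Ng)) +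
        xV * xg * (cU * w ^ NU * w ^ d) =
        cU * w ^ NU * (cV * w ^ NV) * (cg * w ^ Ng) * w ^ d := by
      apply FaithfulSMul.algebraMap_injective (𝓞 K) K
      simp only [map_add, map_mul, map_pow]
      rw [← hxU, ← hxV, ← hxg, hHe]
      linear_combination (algebraMap (𝓞 K) K cU * algebraMap (𝓞 K) K w ^ NU *
        (algebraMap (𝓞 K) K cV * algebraMap (𝓞 K) K w ^ NV) *
        (algebraMap (𝓞 K) K cg * algebraMap (𝓞 K) K w ^ Ng) * algebraMap (𝓞 K) K w ^ d) * h1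
    have h3 : cU * w ^ NU * (cV * w ^ NV) * (cg * w ^ Ng) * w ^ d ∈ p := by
      rw [← h2]
      exact add_mem (Ideal.mul_mem_right _ _ (Ideal.mul_mem_left _ _ hH))
        (Ideal.mul_mem_right _ _ (Ideal.mul_mem_left _ _ hx))
    exact mul_notMem hp (mul_notMem hp (mul_notMem hp (mul_notMem hp hcUp (pow_notMem hp hw _))
      (mul_notMem hp hcVp (pow_notMem hp hw _))) (mul_notMem hp hcgp (pow_notMem hp hw _)))
      (pow_notMem hp hw _) h3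
  · rw [map_mul, map_pow]
    exact hxg

theorem sq_rep {g h q : K[X]} {P : (𝓞 K)[X]}
    (hq : g - h ^ 2 = P.map (algebraMap (𝓞 K) K) * q) : ∃ c : 𝓞 K, c ≠ 0 ∧
      ∀ p : Ideal (𝓞 K), p.IsPrime → p ≠ ⊥ → c ∉ p → ∀ u w : 𝓞 K, w ∉ p → hv P u w ∈ p →
        ∀ x y : 𝓞 K, y ∉ p →
        g.eval (algebraMap (𝓞 K) K u / algebraMap (𝓞 K) K w) * algebraMap (𝓞 K) K y =
          algebraMap (𝓞 K) K x → ∃ z : 𝓞 K, x * y - z ^ 2 ∈ p := by
  obtain ⟨ch, hch, Nh, hh⟩ := eval_int h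
  obtain ⟨cq, hcq, Nq, hqq⟩ := eval_int q
  refine ⟨ch * cq, mul_ne_zero hch hcq, ?_⟩
  intro p hp hp0 hc u w hw hH x y hy hxy
  have hw0 := ne_zero_of_notMem hw
  obtain ⟨t, ht⟩ := hh u w hw0
  obtain ⟨r, hr⟩ := hqq u w hw0
  have hchp : ch ∉ p := fun h => hc (Ideal.mul_mem_right _ _ h)
  have hcqp : cq ∉ p := fun h => hc (Ideal.mul_mem_left _ _ h)
  have hyh : ch * w ^ Nh ∉ p := mul_notMem hp hchp (pow_notMem hp hw _)
  have hyq : cq * w ^ Nq ∉ p := mul_notMem hp hcqp (pow_notMem hp hw _)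
  have hHe := hv_eq P u w hw0
  have h1 := congrArg (Polynomial.eval (algebraMap (𝓞 K) K u / algebraMap (𝓞 K) K w)) hq
  rw [eval_sub, eval_mul, eval_pow] at h1
  set s := algebraMap (𝓞 K) K u / algebraMap (𝓞 K) K w with hs
  set d := P.natDegree with hd
  have h2 : w ^ d * (cq * w ^ Nq) * (x * y * (ch * w ^ Nh) ^ 2 - (t * y) ^ 2) =
      hv P u w * r * (y ^ 2 * (ch * w ^ Nh) ^ 2) := by
    apply FaithfulSMul.algebraMap_injective (𝓞 K) K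
    simp only [map_sub, map_mul, map_pow]
    rw [← hxy, ← ht, ← hr, hHe]
    linear_combination (algebraMap (𝓞 K) K w ^ d * (algebraMap (𝓞 K) K cq *
      algebraMap (𝓞 K) K w ^ Nq) * (algebraMap (𝓞 K) K y ^ 2 *
      (algebraMap (𝓞 K) K ch * algebraMap (𝓞 K) K w ^ Nh) ^ 2)) * h1
  have h3 : w ^ d * (cq * w ^ Nq) * (x * y * (ch * w ^ Nh) ^ 2 - (t * y) ^ 2) ∈ p := by
    rw [h2]
    exact Ideal.mul_mem_right _ _ (Ideal.mul_mem_right _ _ hH)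
  have h4 : x * y * (ch * w ^ Nh) ^ 2 - (t * y) ^ 2 ∈ p :=
    (hp.mem_or_mem h3).resolve_left (mul_notMem hp (pow_notMem hp hw _) hyq)
  obtain ⟨d', hd'⟩ := exists_div hp hp0 (val_zero_iff.2 hyh) (c := 1)
    (by simp) 1
  rw [zero_add, pow_one] at hd'
  refine ⟨t * y * d', ?_⟩
  have h5 : (ch * w ^ Nh) ^ 2 * (x * y - (t * y * d') ^ 2) ∈ p := by
    have h6 : (ch * w ^ Nh) ^ 2 * (x * y - (t * y * d') ^ 2) =
        (x * y * (ch * w ^ Nh) ^ 2 - (t * y) ^ 2) +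
        (t * y) ^ 2 * (1 + ch * w ^ Nh * d') * (1 - ch * w ^ Nh * d') := by ring
    rw [h6]
    exact add_mem h4 (Ideal.mul_mem_left _ _ hd')
  exact (hp.mem_or_mem h5).resolve_left (pow_notMem hp hyh _)

/-- the square piece -/
theorem sq_piece {g g1 h1 q1 : K[X]} {P : (𝓞 K)[X]}
    (hirr : Irreducible (P.map (algebraMap (𝓞 K) K))) (k : ℕ)
    (hg : g = P.map (algebraMap (𝓞 K) K) ^ (2 * k) * g1)
    (hnd : ¬ P.map (algebraMap (𝓞 K) K) ∣ g1)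
    (hsq : g1 - h1 ^ 2 = P.map (algebraMap (𝓞 K) K) * q1) : ∃ c : 𝓞 K, c ≠ 0 ∧
      ∀ p : Ideal (𝓞 K), p.IsPrime → p ≠ ⊥ → c ∉ p → ∀ u w : 𝓞 K, w ∉ p → hv P u w ∈ p →
        ∀ (G : 𝓞 K) (γ : ℕ), Val p G γ → ∀ η : K, η ≠ 0 →
        g.eval (algebraMap (𝓞 K) K u / algebraMap (𝓞 K) K w) = algebraMap (𝓞 K) K G * η ^ 2 →
        ∃ h, G - h ^ 2 ∈ p ^ (γ + 1) := by
  obtain ⟨c1, hc1, H1⟩ := unit_rep hirr hnd
  obtain ⟨c2, hc2, H2⟩ := sq_rep hsq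
  refine ⟨c1 * c2, mul_ne_zero hc1 hc2, ?_⟩
  intro p hp hp0 hc u w hw hH G γ hG η hη hGη
  have hw0 := ne_zero_of_notMem hw
  have hc1p : c1 ∉ p := fun h => hc (Ideal.mul_mem_right _ _ h)
  have hc2p : c2 ∉ p := fun h => hc (Ideal.mul_mem_left _ _ h)
  obtain ⟨x, y, hx, hy, hxy⟩ := H1 p hp hc1p u w hw hH
  obtain ⟨z, hz⟩ := H2 p hp hp0 hc2p u w hw hH x y hy hxy
  obtain ⟨η1, η2, hη2, hηe⟩ := IsFractionRing.div_surjective (A := 𝓞 K) η
  have hη20 : η2 ≠ 0 := nonZeroDivisors.ne_zero hη2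
  have hη2' : algebraMap (𝓞 K) K η2 ≠ 0 := by
    rw [Ne, FaithfulSMul.algebraMap_eq_zero_iff]
    exact hη20
  have hη10 : η1 ≠ 0 := by
    rintro rfl
    apply hη
    rw [← hηe]
    simp
  have hHe := hv_eq P u w hw0
  refine sq_transfer hp hp0 (G := G) (t1 := η1 * (w ^ P.natDegree) ^ k)
    (t2 := hv P u w ^ k * η2) (x := x) (y := y) (z := z) ?_ ?_ hx hy hz hG
  · apply FaithfulSMul.algebraMap_injective (𝓞 K) K
    simp only [map_mul, map_pow]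
    rw [← hxy, hHe]
    rw [hg, eval_mul, eval_pow] at hGη
    have h5 : algebraMap (𝓞 K) K η1 = η * algebraMap (𝓞 K) K η2 := by
      rw [← hηe]
      field_simp
    rw [h5]
    set s := algebraMap (𝓞 K) K u / algebraMap (𝓞 K) K w with hs
    rw [mul_pow (algebraMap (𝓞 K) K w ^ P.natDegree) _ k]
    linear_combination -(algebraMap (𝓞 K) K η2 ^ 2 *
      ((algebraMap (𝓞 K) K w ^ P.natDegree) ^ k) ^ 2 * algebraMap (𝓞 K) K y) * hGη
  · exact mul_ne_zero hη10 (pow_ne_zero _ (pow_ne_zero _ hw0))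

/-- the parity piece -/
theorem par_piece {g g1 : K[X]} {P : (𝓞 K)[X]}
    (hirr : Irreducible (P.map (algebraMap (𝓞 K) K))) (e : ℕ)
    (hg : g = P.map (algebraMap (𝓞 K) K) ^ e * g1)
    (hnd : ¬ P.map (algebraMap (𝓞 K) K) ∣ g1) : ∃ c : 𝓞 K, c ≠ 0 ∧
      ∀ p : Ideal (𝓞 K), p.IsPrime → p ≠ ⊥ → c ∉ p → ∀ u w : 𝓞 K, w ∉ p → hv P u w ∈ p →
        ∀ n : ℕ, (e = 0 ∨ Val p (hv P u w) n) →
        ∀ (G : 𝓞 K) (γ : ℕ), Val p G γ → ∀ η : K, η ≠ 0 →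
        g.eval (algebraMap (𝓞 K) K u / algebraMap (𝓞 K) K w) = algebraMap (𝓞 K) K G * η ^ 2 →
        Even (γ + e * n) := by
  obtain ⟨c1, hc1, H1⟩ := unit_rep hirr hnd
  refine ⟨c1, hc1, ?_⟩
  intro p hp hp0 hc1p u w hw hH n hn G γ hG η hη hGη
  have hw0 := ne_zero_of_notMem hw
  obtain ⟨x, y, hx, hy, hxy⟩ := H1 p hp hc1p u w hw hH
  obtain ⟨η1, η2, hη2, hηe⟩ := IsFractionRing.div_surjective (A := 𝓞 K) η
  have hη20 : η2 ≠ 0 := nonZeroDivisors.ne_zero hη2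
  have hη2' : algebraMap (𝓞 K) K η2 ≠ 0 := by
    rw [Ne, FaithfulSMul.algebraMap_eq_zero_iff]
    exact hη20
  have hη10 : η1 ≠ 0 := by
    rintro rfl
    apply hη
    rw [← hηe]
    simp
  have hHe := hv_eq P u w hw0
  have hE : G * η1 ^ 2 * (y * (w ^ P.natDegree) ^ e) = hv P u w ^ e * (x * η2 ^ 2) := by
    apply FaithfulSMul.algebraMap_injective (𝓞 K) K
    simp only [map_mul, map_pow]
    rw [← hxy, hHe]
    rw [hg, eval_mul, eval_pow] at hGη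
    have h5 : algebraMap (𝓞 K) K η1 = η * algebraMap (𝓞 K) K η2 := by
      rw [← hηe]
      field_simp
    rw [h5]
    set s := algebraMap (𝓞 K) K u / algebraMap (𝓞 K) K w with hs
    rw [mul_pow (algebraMap (𝓞 K) K w ^ P.natDegree) _ e]
    linear_combination -(algebraMap (𝓞 K) K η2 ^ 2 *
      (algebraMap (𝓞 K) K w ^ P.natDegree) ^ e * algebraMap (𝓞 K) K y) * hGη
  obtain ⟨i, hi⟩ := exists_val hp hη10
  obtain ⟨j, hj⟩ := exists_val hp hη20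
  have hyw : Val p (y * (w ^ P.natDegree) ^ e) 0 :=
    val_zero_iff.2 (mul_notMem hp hy (pow_notMem hp (pow_notMem hp hw _) _))
  have hL := (hG.mul hp hp0 (hi.pow hp hp0 2)).mul hp hp0 hyw
  have hR' : Val p (x * η2 ^ 2) (0 + 2 * j) :=
    (val_zero_iff.2 hx).mul hp hp0 (hj.pow hp hp0 2)
  have hHe' : Val p (hv P u w ^ e) (e * n) := by
    rcases hn with hn | hn
    · subst hn
      rw [pow_zero, zero_mul]
      exact val_zero_iff.2 (by rw [← Ideal.eq_top_iff_one]; exact hp.ne_top)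
    · exact hn.pow hp hp0 e
  have hR := hHe'.mul hp hp0 hR'
  rw [hE] at hL
  have h6 := hL.unique hR
  exact ⟨e * n + j - i, by omega⟩

theorem val_poly {g Q : K[X]} {e : ℕ} (hval : Val (Ideal.span {Q}) g e) :
    ∃ g1, g = Q ^ e * g1 ∧ ¬ Q ∣ g1 := by
  obtain ⟨h1, h2⟩ := hval
  rw [Ideal.span_singleton_pow, Ideal.mem_span_singleton] at h1 h2
  obtain ⟨g1, hg1⟩ := h1
  refine ⟨g1, hg1, ?_⟩
  rintro ⟨g2, hg2⟩
  apply h2
  refine ⟨g2, ?_⟩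
  rw [hg1, hg2]
  ring

theorem par_case {g : K[X]} {P : (𝓞 K)[X]}
    (hirr : Irreducible (P.map (algebraMap (𝓞 K) K))) {e : ℕ}
    (hval : Val (Ideal.span {P.map (algebraMap (𝓞 K) K)}) g e) : ∃ c : 𝓞 K, c ≠ 0 ∧
      ∀ p : Ideal (𝓞 K), p.IsPrime → p ≠ ⊥ → c ∉ p → ∀ u w : 𝓞 K, w ∉ p → hv P u w ∈ p →
        ∀ n : ℕ, (e = 0 ∨ Val p (hv P u w) n) →
        ∀ (G : 𝓞 K) (γ : ℕ), Val p G γ → ∀ η : K, η ≠ 0 →
        g.eval (algebraMap (𝓞 K) K u / algebraMap (𝓞 K) K w) = algebraMap (𝓞 K) K G * η ^ 2 →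
        Even (γ + e * n) := by
  obtain ⟨g1, hg, hnd⟩ := val_poly hval
  exact par_piece hirr e hg hnd

theorem sq_case {g : K[X]} {P : (𝓞 K)[X]}
    (hirr : Irreducible (P.map (algebraMap (𝓞 K) K))) {k : ℕ}
    (hval : Val (Ideal.span {P.map (algebraMap (𝓞 K) K)}) g (2 * k))
    (hsq : ∃ h, g - h ^ 2 ∈ Ideal.span {P.map (algebraMap (𝓞 K) K)} ^ (2 * k + 1)) :
    ∃ c : 𝓞 K, c ≠ 0 ∧
      ∀ p : Ideal (𝓞 K), p.IsPrime → p ≠ ⊥ → c ∉ p → ∀ u w : 𝓞 K, w ∉ p → hv P u w ∈ p →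
        ∀ (G : 𝓞 K) (γ : ℕ), Val p G γ → ∀ η : K, η ≠ 0 →
        g.eval (algebraMap (𝓞 K) K u / algebraMap (𝓞 K) K w) = algebraMap (𝓞 K) K G * η ^ 2 →
        ∃ h, G - h ^ 2 ∈ p ^ (γ + 1) := by
  obtain ⟨g1, hg, hnd⟩ := val_poly hval
  obtain ⟨h, hh⟩ := hsq
  set Q := P.map (algebraMap (𝓞 K) K) with hQ
  have hQ0 : Q ≠ 0 := hirr.ne_zero
  have hqp : (Ideal.span {Q}).IsPrime := (Ideal.span_singleton_prime hQ0).2 hirr.prime
  have hq0 : Ideal.span {Q} ≠ ⊥ := by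
    rw [Ne, Ideal.span_singleton_eq_bot]
    exact hQ0
  have h1 : h ^ 2 ∈ Ideal.span {Q} ^ (2 * k) := by
    have h2 := sub_mem hval.1 (Ideal.pow_le_pow_right (Nat.le_succ (2 * k)) hh)
    simpa using h2
  have h3 := mem_pow_of_sq_mem hqp hq0 h1
  rw [Ideal.span_singleton_pow, Ideal.mem_span_singleton] at h3 hh
  obtain ⟨h1', rfl⟩ := h3
  obtain ⟨q1, hq1⟩ := hh
  refine sq_piece (h1 := h1') (q1 := q1) hirr k hg hnd ?_
  have h4 : Q ^ (2 * k) * (g1 - h1' ^ 2) = Q ^ (2 * k) * (Q * q1) := by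
    have h5 : Q ^ (2 * k) * (g1 - h1' ^ 2) = g - (Q ^ k * h1') ^ 2 := by
      rw [hg]
      ring
    rw [h5, hq1]
    ring
  exact mul_left_cancel₀ (pow_ne_zero _ hQ0) h4

/-- **LCV.** Specialisation of the local condition: if the symbol `(a, b)` is unramified at the
place `P` of `K(X)`, then for every place `p` of `K` outside a finite set the specialisation at
`u / w`, `p ∤ w`, `p ∣ P(u, w)`, satisfies the local condition at `p`, for all integral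
representatives `A`, `B` of the square classes of `a (u / w)`, `b (u / w)`. -/
theorem lcv {a b : K[X]} {P : (𝓞 K)[X]} (hirr : Irreducible (P.map (algebraMap (𝓞 K) K)))
    (hLC : LC (Ideal.span {P.map (algebraMap (𝓞 K) K)}) a b) :
    ∃ m1 : ℕ, m1 ≠ 0 ∧ ∀ p : Ideal (𝓞 K), p.IsPrime → p ≠ ⊥ → (m1 : 𝓞 K) ∉ p →
      ∀ u w : 𝓞 K, w ∉ p → hv P u w ∈ p → ∀ A B : 𝓞 K, A ≠ 0 → B ≠ 0 →
      ∀ η θ : K, η ≠ 0 → θ ≠ 0 →
        a.eval (algebraMap (𝓞 K) K u / algebraMap (𝓞 K) K w) = algebraMap (𝓞 K) K A * η ^ 2 →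
        b.eval (algebraMap (𝓞 K) K u / algebraMap (𝓞 K) K w) = algebraMap (𝓞 K) K B * θ ^ 2 →
        LC p A B := by
  obtain ⟨e, f, hve, hvf, hcases⟩ := hLC
  obtain ⟨ca, hca, Ha⟩ := par_case hirr hve
  obtain ⟨cb, hcb, Hb⟩ := par_case hirr hvf
  have hQ0 : P.map (algebraMap (𝓞 K) K) ≠ 0 := hirr.ne_zero
  have hqp : (Ideal.span {P.map (algebraMap (𝓞 K) K)}).IsPrime :=
    (Ideal.span_singleton_prime hQ0).2 hirr.prime
  have hq0 : Ideal.span {P.map (algebraMap (𝓞 K) K)} ≠ ⊥ := by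
    rw [Ne, Ideal.span_singleton_eq_bot]
    exact hQ0
  -- the square conditions
  have hsq : ∃ c : 𝓞 K, c ≠ 0 ∧
      ∀ p : Ideal (𝓞 K), p.IsPrime → p ≠ ⊥ → c ∉ p → ∀ u w : 𝓞 K, w ∉ p → hv P u w ∈ p →
        ∀ (A B : 𝓞 K) (α β : ℕ), Val p A α → Val p B β → ∀ η θ : K, η ≠ 0 → θ ≠ 0 →
        a.eval (algebraMap (𝓞 K) K u / algebraMap (𝓞 K) K w) = algebraMap (𝓞 K) K A * η ^ 2 →
        b.eval (algebraMap (𝓞 K) K u / algebraMap (𝓞 K) K w) = algebraMap (𝓞 K) K B * θ ^ 2 →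
        (Even e ∧ Even f) ∨ (¬ Even e ∧ Even f ∧ ∃ h, B - h ^ 2 ∈ p ^ (β + 1)) ∨
        (Even e ∧ ¬ Even f ∧ ∃ h, A - h ^ 2 ∈ p ^ (α + 1)) ∨
        (¬ Even e ∧ ¬ Even f ∧ ∃ h, - (A * B) - h ^ 2 ∈ p ^ (α + β + 1)) := by
    rcases hcases with h | ⟨h1, h2, h3⟩ | ⟨h1, h2, h3⟩ | ⟨h1, h2, h3⟩
    · exact ⟨1, one_ne_zero, fun _ _ _ _ _ _ _ _ _ _ _ _ _ _ _ _ _ _ _ _ => Or.inl h⟩
    · obtain ⟨k, hk⟩ := h2
      obtain rfl : f = 2 * k := by omega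
      obtain ⟨c, hc, H⟩ := sq_case hirr hvf h3
      refine ⟨c, hc, ?_⟩
      intro p hp hp0 hcp u w hw hH A B α β hA hB η θ hη hθ hAη hBθ
      exact Or.inr (Or.inl ⟨h1, ⟨k, hk⟩, H p hp hp0 hcp u w hw hH B β hB θ hθ hBθ⟩)
    · obtain ⟨k, hk⟩ := h1
      obtain rfl : e = 2 * k := by omega
      obtain ⟨c, hc, H⟩ := sq_case hirr hve h3
      refine ⟨c, hc, ?_⟩
      intro p hp hp0 hcp u w hw hH A B α β hA hB η θ hη hθ hAη hBθ
      exact Or.inr (Or.inr (Or.inl ⟨⟨k, hk⟩, h2, H p hp hp0 hcp u w hw hH A α hA η hη hAη⟩))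
    · obtain ⟨k, hk⟩ : ∃ k, e + f = 2 * k := by
        obtain ⟨r, hr⟩ := Nat.not_even_iff_odd.1 h1
        obtain ⟨t, ht⟩ := Nat.not_even_iff_odd.1 h2
        exact ⟨r + t + 1, by omega⟩
      have hv' : Val (Ideal.span {P.map (algebraMap (𝓞 K) K)}) (-(a * b)) (2 * k) := by
        rw [← hk]
        exact (hve.mul hqp hq0 hvf).neg
      rw [hk] at h3
      obtain ⟨c, hc, H⟩ := sq_case hirr hv' h3
      refine ⟨c, hc, ?_⟩
      intro p hp hp0 hcp u w hw hH A B α β hA hB η θ hη hθ hAη hBθ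
      refine Or.inr (Or.inr (Or.inr ⟨h1, h2, ?_⟩))
      refine H p hp hp0 hcp u w hw hH (-(A * B)) (α + β) (hA.mul hp hp0 hB).neg (η * θ)
        (mul_ne_zero hη hθ) ?_
      rw [eval_neg, eval_mul, hAη, hBθ, map_neg, map_mul]
      ring
  obtain ⟨cs, hcs, Hs⟩ := hsq
  set c := ca * cb * cs with hc
  have hc0 : c ≠ 0 := mul_ne_zero (mul_ne_zero hca hcb) hcs
  refine ⟨Ideal.absNorm (Ideal.span {c}), ?_, ?_⟩
  · rw [Ne, Ideal.absNorm_eq_zero_iff, Ideal.span_singleton_eq_bot]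
    exact hc0
  intro p hp hp0 hm u w hw hH A B hA hB η θ hη hθ hAη hBθ
  have hcp : c ∉ p := by
    intro h
    apply hm
    have h1 : Ideal.span {c} ≤ p := by
      rw [Ideal.span_singleton_le_iff_mem]
      exact h
    exact h1 (Ideal.absNorm_mem _)
  have hcap : ca ∉ p := fun h => hcp (Ideal.mul_mem_right _ _ (Ideal.mul_mem_right _ _ h))
  have hcbp : cb ∉ p := fun h => hcp (Ideal.mul_mem_right _ _ (Ideal.mul_mem_left _ _ h))
  have hcsp : cs ∉ p := fun h => hcp (Ideal.mul_mem_left _ _ h)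
  obtain ⟨α, hα⟩ := exists_val hp hA
  obtain ⟨β, hβ⟩ := exists_val hp hB
  have hw0 := ne_zero_of_notMem hw
  have hn : ∃ n, (e = 0 ∨ Val p (hv P u w) n) ∧ (f = 0 ∨ Val p (hv P u w) n) := by
    by_cases hz : hv P u w = 0
    · have hHe := hv_eq P u w hw0
      rw [hz, map_zero] at hHe
      have hw' : algebraMap (𝓞 K) K w ≠ 0 := by
        rw [Ne, FaithfulSMul.algebraMap_eq_zero_iff]
        exact hw0
      have hev : (P.map (algebraMap (𝓞 K) K)).eval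
          (algebraMap (𝓞 K) K u / algebraMap (𝓞 K) K w) = 0 :=
        (mul_eq_zero.1 hHe.symm).resolve_left (pow_ne_zero _ hw')
      have hne : ∀ {G : 𝓞 K} {η : K}, G ≠ 0 → η ≠ 0 → algebraMap (𝓞 K) K G * η ^ 2 ≠ 0 := by
        intro G η hG hη
        refine mul_ne_zero ?_ (pow_ne_zero _ hη)
        rw [Ne, FaithfulSMul.algebraMap_eq_zero_iff]
        exact hG
      refine ⟨0, Or.inl ?_, Or.inl ?_⟩
      · by_contra he
        obtain ⟨g1, hg1, -⟩ := val_poly hve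
        apply hne hA hη
        rw [← hAη, hg1, eval_mul, eval_pow, hev, zero_pow he, zero_mul]
      · by_contra he
        obtain ⟨g1, hg1, -⟩ := val_poly hvf
        apply hne hB hθ
        rw [← hBθ, hg1, eval_mul, eval_pow, hev, zero_pow he, zero_mul]
    · obtain ⟨n, hn⟩ := exists_val hp hz
      exact ⟨n, Or.inr hn, Or.inr hn⟩
  obtain ⟨n, hn1, hn2⟩ := hn
  have hpa := Ha p hp hp0 hcap u w hw hH n hn1 A α hα η hη hAη
  have hpb := Hb p hp hp0 hcbp u w hw hH n hn2 B β hβ θ hθ hBθ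
  have hS := Hs p hp hp0 hcsp u w hw hH A B α β hα hβ η θ hη hθ hAη hBθ
  refine ⟨α, β, hα, hβ, ?_⟩
  rw [Nat.even_add, Nat.even_mul] at hpa hpb
  by_cases hne : Even n
  · exact Or.inl ⟨hpa.2 (Or.inr hne), hpb.2 (Or.inr hne)⟩
  · have h1 : Even α ↔ Even e := ⟨fun h => (hpa.1 h).resolve_right hne, fun h => hpa.2 (Or.inl h)⟩
    have h2 : Even β ↔ Even f := ⟨fun h => (hpb.1 h).resolve_right hne, fun h => hpb.2 (Or.inl h)⟩
    rw [h1, h2]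
    exact hS

end Pool.Agent.Helper17.CB
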