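import Pool.Agent.Helper17.CB.LCV
import Pool.Agent.Helper3.CB.PwG

/-! Project CB, piece LCV in the form of the coefficients `vA`, `vB`. -/

set_option autoImplicit false

namespace Pool.Agent.Helper17.CB

open NumberField Polynomial Pool.Agent.Helper16.CB Pool.Agent.Helper4.CB Pool.Agent.Helper3.CB

variable {K : Type} [Field K] [NumberField K]

/-- the value of a product of powers -/
theorem eval_vA (S₀ : Finset (𝓞 K)[X]) (α : 𝓞 K) (e : (𝓞 K)[X] → ℕ) {ε k : ℕ}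
    (hk : (∑ Q ∈ S₀, e Q * Q.natDegree) + ε = 2 * k) (u : 𝓞 K) {V : 𝓞 K} (hV : V ≠ 0) :
    (C (algebraMap (𝓞 K) K α) * ∏ Q ∈ S₀, (Q.map (algebraMap (𝓞 K) K)) ^ e Q).eval
      (algebraMap (𝓞 K) K u / algebraMap (𝓞 K) K V) =
      algebraMap (𝓞 K) K (vA S₀ α ε e u V) * ((algebraMap (𝓞 K) K V ^ k)⁻¹) ^ 2 := by
  have hV' : algebraMap (𝓞 K) K V ≠ 0 := by
    rw [Ne, FaithfulSMul.algebraMap_eq_zero_iff]
    exact hV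
  have h1 : algebraMap (𝓞 K) K (vA S₀ α ε e u V) = algebraMap (𝓞 K) K α *
      algebraMap (𝓞 K) K V ^ ε * (algebraMap (𝓞 K) K V ^ (∑ Q ∈ S₀, e Q * Q.natDegree) *
      ∏ Q ∈ S₀, ((Q.map (algebraMap (𝓞 K) K)).eval
        (algebraMap (𝓞 K) K u / algebraMap (𝓞 K) K V)) ^ e Q) := by
    unfold vA
    rw [map_mul, map_mul, map_pow, map_prod]
    congr 1
    rw [← Finset.prod_pow_eq_pow_sum, ← Finset.prod_mul_distrib]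
    refine Finset.prod_congr rfl fun Q hQ => ?_
    rw [map_pow, Pool.Agent.Helper17.CB.hv_eq Q u V hV, mul_pow, ← pow_mul, mul_comm (e Q)]
  rw [h1, eval_mul, eval_C, eval_prod]
  simp only [eval_pow]
  have h2 : algebraMap (𝓞 K) K V ^ ε * algebraMap (𝓞 K) K V ^ (∑ Q ∈ S₀, e Q * Q.natDegree) =
      (algebraMap (𝓞 K) K V ^ k) ^ 2 := by
    rw [← pow_add, ← pow_mul]
    congr 1
    omega
  have h3 : algebraMap (𝓞 K) K V ^ k ≠ 0 := pow_ne_zero _ hV'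
  rw [inv_pow]
  have h4 : (algebraMap (𝓞 K) K V ^ k) ^ 2 ≠ 0 := pow_ne_zero _ h3
  rw [← mul_assoc, mul_assoc (algebraMap (𝓞 K) K α), h2]
  field_simp

/-- **LCV** for products of powers. -/
theorem lcv_vA (S₀ : Finset (𝓞 K)[X]) {α β : 𝓞 K} (hα : α ≠ 0) (hβ : β ≠ 0)
    (e f : (𝓞 K)[X] → ℕ) {P : (𝓞 K)[X]} (hirr : Irreducible (P.map (algebraMap (𝓞 K) K)))
    (hLC : LC (Ideal.span {P.map (algebraMap (𝓞 K) K)})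
      (C (algebraMap (𝓞 K) K α) * ∏ Q ∈ S₀, (Q.map (algebraMap (𝓞 K) K)) ^ e Q)
      (C (algebraMap (𝓞 K) K β) * ∏ Q ∈ S₀, (Q.map (algebraMap (𝓞 K) K)) ^ f Q)) :
    ∃ m1 : ℕ, m1 ≠ 0 ∧ ∀ p : Ideal (𝓞 K), p.IsPrime → p ≠ ⊥ → (m1 : 𝓞 K) ∉ p →
      ∀ u V : 𝓞 K, V ∉ p → (∀ P' ∈ S₀, hv P' u V ≠ 0) → hv P u V ∈ p →
      ∀ ε ε' : ℕ, Even ((∑ Q ∈ S₀, e Q * Q.natDegree) + ε) →
        Even ((∑ Q ∈ S₀, f Q * Q.natDegree) + ε') →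
        LC p (vA S₀ α ε e u V) (vA S₀ β ε' f u V) := by
  obtain ⟨m1, hm1, H⟩ := lcv hirr hLC
  refine ⟨m1, hm1, ?_⟩
  intro p hp hp0 hm u V hV hne hP ε ε' hε hε'
  obtain ⟨k, hk⟩ := hε.two_dvd
  obtain ⟨k', hk'⟩ := hε'.two_dvd
  have hV0 : V ≠ 0 := ne_zero_of_notMem hV
  have hV' : algebraMap (𝓞 K) K V ≠ 0 := by
    rw [Ne, FaithfulSMul.algebraMap_eq_zero_iff]
    exact hV0
  have hne' : ∀ (γ : 𝓞 K), γ ≠ 0 → ∀ (n : ℕ) (g : (𝓞 K)[X] → ℕ), vA S₀ γ n g u V ≠ 0 := by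
    intro γ hγ n g
    exact mul_ne_zero (mul_ne_zero hγ (pow_ne_zero _ hV0))
      (Finset.prod_ne_zero_iff.2 fun Q hQ => pow_ne_zero _ (hne Q hQ))
  exact H p hp hp0 hm u V hV hP _ _ (hne' α hα ε e) (hne' β hβ ε' f) _ _
    (inv_ne_zero (pow_ne_zero k hV')) (inv_ne_zero (pow_ne_zero k' hV'))
    (eval_vA S₀ α e hk u hV0) (eval_vA S₀ β f hk' u hV0)

/-- **LCV** in the form of `stepG`. -/
theorem lcv_step (S₀ : Finset (𝓞 K)[X]) {α β : 𝓞 K} (hα : α ≠ 0) (hβ : β ≠ 0)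
    (e f : (𝓞 K)[X] → ℕ) {P : (𝓞 K)[X]} (hirr : Irreducible (P.map (algebraMap (𝓞 K) K)))
    (hLC : LC (Ideal.span {P.map (algebraMap (𝓞 K) K)})
      (C (algebraMap (𝓞 K) K α) * ∏ Q ∈ S₀, (Q.map (algebraMap (𝓞 K) K)) ^ e Q)
      (C (algebraMap (𝓞 K) K β) * ∏ Q ∈ S₀, (Q.map (algebraMap (𝓞 K) K)) ^ f Q)) :
    ∃ m1 : ℕ, m1 ≠ 0 ∧ ∀ p : Ideal (𝓞 K), p.IsPrime → p ≠ ⊥ → (m1 : 𝓞 K) ∉ p →
      ∀ u V : 𝓞 K, V ∉ p → (∀ P' ∈ S₀, hv P' u V ≠ 0) → hv P u V ∈ p →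
        LC p (vA S₀ α (∑ Q ∈ S₀, e Q * Q.natDegree) e u V)
          (vA S₀ β (∑ Q ∈ S₀, f Q * Q.natDegree) f u V) := by
  obtain ⟨m1, hm1, H⟩ := lcv_vA S₀ hα hβ e f hirr hLC
  exact ⟨m1, hm1, fun p hp hp0 hm u V hV hne hP =>
    H p hp hp0 hm u V hV hne hP _ _ ⟨_, rfl⟩ ⟨_, rfl⟩⟩

/-- **LCV** in the form of `pwG_of`. -/
theorem lcv_pw (S₀ : Finset (𝓞 K)[X]) {α : 𝓞 K} (hα : α ≠ 0)
    (e f : (𝓞 K)[X] → ℕ) (hf : Even (∑ P ∈ S₀, f P * P.natDegree))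
    {P : (𝓞 K)[X]} (hirr : Irreducible (P.map (algebraMap (𝓞 K) K)))
    (hLC : LC (Ideal.span {P.map (algebraMap (𝓞 K) K)})
      (C (algebraMap (𝓞 K) K α) * ∏ Q ∈ S₀, (Q.map (algebraMap (𝓞 K) K)) ^ e Q)
      (∏ Q ∈ S₀, (Q.map (algebraMap (𝓞 K) K)) ^ f Q))
    {ε : ℕ} (hε : Even ((∑ Q ∈ S₀, e Q * Q.natDegree) + ε)) :
    ∃ m1 : ℕ, m1 ≠ 0 ∧ ∀ p : Ideal (𝓞 K), p.IsPrime → p ≠ ⊥ → (m1 : 𝓞 K) ∉ p →
      ∀ u V : 𝓞 K, V ∉ p → (∀ P' ∈ S₀, hv P' u V ≠ 0) → hv P u V ∈ p →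
        LC p (vA S₀ α ε e u V) (vB S₀ f u V) := by
  obtain ⟨m1, hm1, H⟩ := lcv_vA S₀ hα (one_ne_zero (α := 𝓞 K)) e f hirr
    (by rwa [map_one, C_1, one_mul])
  refine ⟨m1, hm1, fun p hp hp0 hm u V hV hne hP => ?_⟩
  have h := H p hp hp0 hm u V hV hne hP ε 0 hε (by rwa [add_zero])
  have h1 : vA S₀ 1 0 f u V = vB S₀ f u V := by
    unfold vA vB
    rw [pow_zero, one_mul, one_mul]
  rwa [h1] at h

end Pool.Agent.Helper17.CB
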