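import Pool.Agent.Helper17.CB.LCVA
import Pool.Agent.Helper33.CB.PG

/-! Project CB: LCV in the form of PG. -/

set_option autoImplicit false

namespace Pool.Agent.Helper17.CB

open NumberField Polynomial

theorem lcvStmt (K : Type) [Field K] [NumberField K] : Pool.Agent.Helper33.CB.LcvStmt K := by
  intro S₀ hS e f hf α hα P hP hLC
  exact lcv_pw S₀ hα e f hf (hS P hP).2.2 hLC ⟨_, rfl⟩

end Pool.Agent.Helper17.CB
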